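import Pool.Agent.helper67.TPD.Spec
import Pool.Agent.helper93.TPC.W2

/-! # Row tpd:W2Q: many cells lie in windows `B (v-1)^2 ≤ Q M < B v^2`, `v = c mod D` -/

set_option autoImplicit false

open Finset

noncomputable section

namespace Pool.Agent.TPD

open Pool.Agent.EP Pool.Agent.PQ
open Pool.Agent.FJ (cl gp PSI_stmt GPT_stmt GPT)
open Pool.Agent.TPC (W2_win W2_cell W2_card W2_low W2_sqrt W2_st)

theorem W2Q_rpow (x s c : ℕ) (hs : 1 ≤ s) (hsx : s ^ 2 ≤ x) (hx : (2 * c) ^ 10 ≤ x) :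
    ((c * (s + 1) : ℕ) : ℝ) ≤ (x : ℝ) ^ (3 / 5 : ℝ) := by
  have h1 : (c * (s + 1)) ^ 5 ≤ x ^ 3 := by
    rw [← Nat.pow_le_pow_iff_left (n := 2) (by norm_num)]
    have h0 : c * (s + 1) ≤ 2 * c * s := by nlinarith
    calc ((c * (s + 1)) ^ 5) ^ 2 ≤ ((2 * c * s) ^ 5) ^ 2 := by
          apply Nat.pow_le_pow_left
          apply Nat.pow_le_pow_left
          exact h0
      _ = (2 * c) ^ 10 * (s ^ 2) ^ 5 := by ring
      _ ≤ x * x ^ 5 := Nat.mul_le_mul hx (Nat.pow_le_pow_left hsx 5)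
      _ = (x ^ 3) ^ 2 := by ring
  have h2 : (((c * (s + 1) : ℕ) : ℝ)) ^ (5 : ℕ) ≤ (x : ℝ) ^ (3 : ℕ) := by exact_mod_cast h1
  have h3 : ((x : ℝ) ^ (3 / 5 : ℝ)) ^ (5 : ℕ) = (x : ℝ) ^ (3 : ℕ) := by
    rw [← Real.rpow_natCast, ← Real.rpow_mul (Nat.cast_nonneg x), ← Real.rpow_natCast]
    norm_num
  rw [← h3] at h2
  exact le_of_pow_le_pow_left₀ (by norm_num) (by positivity) h2

theorem W2Q : W2Q_stmt := by
  intro B Q D c hB hQ hD
  have hB0 : (0 : ℝ) < B := by exact_mod_cast hB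
  have hQ0 : (0 : ℝ) < Q := by exact_mod_cast hQ
  have hD0 : (0 : ℝ) < D := by exact_mod_cast hD
  refine ⟨1 / (1280 * Q * B * D), by positivity,
    (2 * (4 * Q)) ^ 10 + (10 * (D + 1) + 2 * Q) ^ 2 * B + (32 * Q) ^ 2, fun x hx => ?_⟩
  have hx8 : (2 * (4 * Q)) ^ 10 ≤ x := by omega
  have hxD : (10 * (D + 1) + 2 * Q) ^ 2 * B ≤ x := by omega
  have hx32 : (32 * Q) ^ 2 ≤ x := by omega
  have hxQ : x ≤ Q * x := Nat.le_mul_of_pos_left x hQ
  set s : ℕ := Nat.sqrt x with hs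
  set t : ℕ := Nat.sqrt (Q * x / B) with ht
  have hs1 : s ^ 2 ≤ x := Nat.sqrt_le' x
  have hs2 : x < (s + 1) ^ 2 := Nat.lt_succ_sqrt' x
  have ht1 : t ^ 2 * B ≤ Q * x := by
    have := Nat.sqrt_le' (Q * x / B)
    rwa [← ht, Nat.le_div_iff_mul_le hB] at this
  have ht2 : Q * x < (t + 1) ^ 2 * B := by
    have := Nat.lt_succ_sqrt' (Q * x / B)
    rwa [← ht, Nat.div_lt_iff_lt_mul hB] at this
  have hs32 : 32 * Q ≤ s := by
    rw [hs, Nat.le_sqrt']
    exact hx32
  have htD : 10 * (D + 1) + 2 * Q ≤ t := by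
    rw [ht, Nat.le_sqrt', Nat.le_div_iff_mul_le hB]
    exact hxD.trans hxQ
  have hx1 : 1 ≤ x := by
    have : 1 ≤ (32 * Q) ^ 2 := Nat.one_le_pow _ _ (by omega)
    omega
  have hs0 : 1 ≤ s := by omega
  set K : ℕ := 4 * Q * (s + 1) with hKdef
  have hK1 : 1 ≤ K := Nat.mul_pos (by omega) (by omega)
  obtain ⟨g0, gK, gm, -, -, -, -, gsz⟩ := GPT x K hx1 hK1
  have hKr : (0 : ℝ) < (K : ℝ) := by exact_mod_cast hK1
  have hKe : (K : ℝ) = 4 * Q * ((s : ℝ) + 1) := by
    rw [hKdef]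
    push_cast
    ring
  have hsr : (1 : ℝ) ≤ s := by exact_mod_cast hs0
  have hs2r : (x : ℝ) < ((s : ℝ) + 1) ^ 2 := by exact_mod_cast hs2
  have hstep : ∀ i < K, 2 * (Q * gp x K (i + 1)) ≤ 2 * (Q * gp x K i) + (s + 2 * Q - 2) + 3 := by
    intro i hi
    have h1 := gsz i hi
    rw [W2_card x _ i (gm i (i + 1) (by omega))] at h1
    have h2 : 2 * (x : ℝ) / (K : ℝ) ≤ ((s : ℝ) + 1) / (2 * Q) := by
      rw [div_le_div_iff₀ hKr (by positivity), hKe]
      nlinarith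
    have h4 : (Q : ℝ) * gp x K (i + 1) ≤ Q * gp x K i + ((s : ℝ) + 1) / 2 + Q := by
      have h5 : (gp x K (i + 1) : ℝ) ≤ gp x K i + ((s : ℝ) + 1) / (2 * Q) + 1 := by linarith
      have h6 := mul_le_mul_of_nonneg_left h5 hQ0.le
      have h7 : (Q : ℝ) * (gp x K i + ((s : ℝ) + 1) / (2 * Q) + 1) =
          Q * gp x K i + ((s : ℝ) + 1) / 2 + Q := by
        field_simp
      linarith
    have h8 : (2 * (Q * gp x K (i + 1)) : ℝ) ≤ 2 * (Q * gp x K i) + s + 1 + 2 * Q := by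
      linarith
    have h9 : 2 * (Q * gp x K (i + 1)) ≤ 2 * (Q * gp x K i) + s + 1 + 2 * Q := by
      exact_mod_cast h8
    omega
  refine ⟨K, hK1, ?_, ?_⟩
  · rw [hKdef]
    exact W2Q_rpow x s (4 * Q) hs0 hs1 hx8
  -- the residue
  obtain ⟨r, hrD, hr⟩ : ∃ r < D, (t + 2 + r) % D = c % D := by
    refine ⟨(c + (D - 1) * (t + 2)) % D, Nat.mod_lt _ hD, ?_⟩
    rw [Nat.add_mod_mod]
    have e : t + 2 + (c + (D - 1) * (t + 2)) = c + D * (t + 2) := by
      obtain ⟨D', rfl⟩ : ∃ D', D = D' + 1 := ⟨D - 1, by omega⟩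
      rw [Nat.add_sub_cancel]
      ring
    rw [e, Nat.add_mul_mod_self_left]
  set J : ℕ := t / (5 * D) with hJ
  have hJ1 : J * (5 * D) ≤ t := Nat.div_mul_le_self t (5 * D)
  have hJ2 : t < (J + 1) * (5 * D) := by
    have := Nat.lt_div_mul_add (a := t) (b := 5 * D) (by omega)
    rw [add_mul, one_mul]
    exact this
  -- the index
  have hcell : ∀ j : ℕ, ∃ i : ℕ, j < J → i < K ∧
      B * (t + 1 + r + D * j) ^ 2 ≤ Q * gp x K i ∧
      Q * gp x K (i + 1) < B * (t + 1 + r + D * j + 1) ^ 2 := by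
    intro j
    by_cases hj : j < J
    · have hDj : 5 * (D * (j + 1)) ≤ t := by
        calc 5 * (D * (j + 1)) = (j + 1) * (5 * D) := by ring
          _ ≤ J * (5 * D) := Nat.mul_le_mul_right _ hj
          _ ≤ t := hJ1
      have hDj' : D * (j + 1) = D * j + D := by ring
      set w : ℕ := t + 1 + r + D * j with hw
      have hw1 : t + 1 ≤ w := by omega
      have hw2 : 5 * (w + 1) ≤ 7 * t := by omega
      have ha : Q * x ≤ B * w ^ 2 := by
        calc Q * x ≤ (t + 1) ^ 2 * B := ht2.le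
          _ ≤ w ^ 2 * B := Nat.mul_le_mul_right _ (Nat.pow_le_pow_left hw1 2)
          _ = B * w ^ 2 := by ring
      have hb : B * (w + 1) ^ 2 ≤ 2 * (Q * x) := by
        have h1 : (5 * (w + 1)) ^ 2 ≤ (7 * t) ^ 2 := Nat.pow_le_pow_left hw2 2
        have h2 : (w + 1) ^ 2 ≤ 2 * t ^ 2 := by nlinarith
        calc B * (w + 1) ^ 2 ≤ B * (2 * t ^ 2) := Nat.mul_le_mul_left _ h2
          _ = 2 * (t ^ 2 * B) := by ring
          _ ≤ 2 * (Q * x) := Nat.mul_le_mul_left _ ht1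
      have hab : B * w ^ 2 + (s + 2 * Q - 2) + 4 ≤ B * (w + 1) ^ 2 := by
        have h1 := W2_sqrt x B w s hB hs1 (hxQ.trans ha)
        have h2 : w ≤ B * w := Nat.le_mul_of_pos_left w hB
        have e : B * (w + 1) ^ 2 = B * w ^ 2 + 2 * (B * w) + B := by ring
        omega
      obtain ⟨i, hi1, hi2, hi3⟩ := W2_cell (fun i => Q * gp x K i) (Q * x) K (s + 2 * Q - 2) (B * w ^ 2)
        (B * (w + 1) ^ 2) (by
          change Q * gp x K 0 = Q * x
          rw [g0]) (by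
          change Q * gp x K K = 2 * (Q * x)
          rw [gK]
          ring) (fun i j hij => Nat.mul_le_mul_left Q (gm i j hij)) hstep ha hb hab
      exact ⟨i, fun _ => ⟨hi1, hi2, hi3⟩⟩
    · exact ⟨0, fun h => absurd h hj⟩
  choose f hf using hcell
  refine ⟨(range J).image f, ?_, ?_, ?_⟩
  · intro i hi
    rw [mem_image] at hi
    obtain ⟨j, hj, rfl⟩ := hi
    exact mem_range.2 (hf j (mem_range.1 hj)).1
  · have hinj : Set.InjOn f (range J : Finset ℕ) := by
      intro j hj j' hj' hjj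
      obtain ⟨h1, h2, h3⟩ := hf j (by simpa using hj)
      obtain ⟨h1', h2', h3'⟩ := hf j' (by simpa using hj')
      rw [← hjj] at h1' h2' h3'
      have h4 : Q * gp x K (f j) ≤ Q * gp x K (f j + 1) :=
        Nat.mul_le_mul_left Q (gm (f j) (f j + 1) (by omega))
      have e1 := W2_win B _ _ hB h2 (lt_of_le_of_lt h4 h3)
      have e2 := W2_win B _ _ hB h2' (lt_of_le_of_lt h4 h3')
      rw [e1] at e2
      have e3 : D * j = D * j' := by omega
      exact Nat.eq_of_mul_eq_mul_left hD e3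
    rw [Finset.sum_image hinj]
    have hlow : ∀ j ∈ range J, (s : ℝ) / (32 * Q) ≤ (#(cl x K (f j)) : ℝ) := by
      intro j _
      rw [W2_card x _ (f j) (gm _ _ (by omega))]
      refine le_trans ?_ (W2_low x K (f j) hK1)
      have hs3 : (32 : ℝ) * Q ≤ s := by exact_mod_cast hs32
      have h1 : (s : ℝ) ^ 2 ≤ x := by exact_mod_cast hs1
      have h2 : (s : ℝ) / (16 * Q) ≤ (x : ℝ) / (2 * (K : ℝ)) := by
        rw [div_le_div_iff₀ (by positivity) (by positivity), hKe]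
        have h3 : (s : ℝ) * (2 * (4 * Q * ((s : ℝ) + 1))) = 8 * Q * (s * (s + 1)) := by ring
        have h4 : (s : ℝ) * (s + 1) ≤ 2 * x := by nlinarith
        have h5 := mul_le_mul_of_nonneg_left h4 (by positivity : (0 : ℝ) ≤ 8 * Q)
        nlinarith
      have h6 : (s : ℝ) / (16 * Q) = s / (32 * Q) + s / (32 * Q) := by
        field_simp
        norm_num
      have h7 : (1 : ℝ) ≤ s / (32 * Q) := by
        rw [le_div_iff₀ (by positivity), one_mul]
        exact hs3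
      linarith
    have hsum := Finset.sum_le_sum hlow
    rw [Finset.sum_const, card_range, nsmul_eq_mul] at hsum
    refine le_trans ?_ hsum
    have h1 : (x : ℝ) ≤ 4 * B * s * t := by
      exact_mod_cast W2_st x B s t hB (by omega) (by omega) hs2 (lt_of_le_of_lt hxQ ht2)
    have h2 : (t : ℝ) ≤ J * (10 * D) := by
      have h3 : t ≤ J * (10 * D) := by
        have e1 : (J + 1) * (5 * D) = J * (5 * D) + 5 * D := by ring
        have e2 : J * (10 * D) = 2 * (J * (5 * D)) := by ring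
        omega
      exact_mod_cast h3
    have h4 : 4 * (B : ℝ) * s * t ≤ 4 * B * s * (J * (10 * D)) :=
      mul_le_mul_of_nonneg_left h2 (by positivity)
    have h5 : (J : ℝ) * (s / (32 * Q)) = (4 * B * s * (J * (10 * D))) / (1280 * Q * B * D) := by
      field_simp
      ring
    rw [h5, div_mul_eq_mul_div, one_mul]
    exact div_le_div_of_nonneg_right (h1.trans h4) (by positivity)
  · intro i hi M hM
    rw [mem_image] at hi
    obtain ⟨j, hj, rfl⟩ := hi
    obtain ⟨h1, h2, h3⟩ := hf j (mem_range.1 hj)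
    unfold cl at hM
    rw [mem_Ioc] at hM
    have h4 : gp x K (f j) < M := by exact_mod_cast hM.1
    have h5 : M ≤ gp x K (f j + 1) := by exact_mod_cast hM.2
    rw [W2_win B _ (Q * M) hB (h2.trans (Nat.mul_le_mul_left Q h4.le))
      (lt_of_le_of_lt (Nat.mul_le_mul_left Q h5) h3)]
    have e : t + 1 + r + D * j + 1 = t + 2 + r + D * j := by ring
    rw [e, Nat.add_mul_mod_self_left, hr]

end Pool.Agent.TPD
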